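import Mathlib
import Pool.Agent.Results.MP_f5b23d_al.FrattiniGenus
import Pool.Agent.Y134.Fr.Main

namespace Pool.Agent.Results.MP_f5b23d_al.FrattiniRanks

open FrattiniGenus

/-- For every `N` there are groups `Q 0, Q 1, …` such that, for every finitely generated residually
torsion-free nilpotent group `K` (in particular for the trivial group), the groups `K × Q n` are
finitely generated, residually torsion-free nilpotent and of the same genus, and the Frattini
subgroup of `K × Q n` is the product of that of `K` and a free abelian group of rank `n`, for all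
`n ≤ N`. In particular, if `K` has trivial Frattini subgroup, then so has `K × Q 0`, but none of
`K × Q 1, …, K × Q N`. -/
theorem result (N : ℕ) : ∃ (Q : ℕ → Type) (_ : ∀ n, Group (Q n)),
    ∀ (K : Type) [Group K], Group.FG K → ResiduallyTorsionFreeNilpotent K →
      (∀ n, Group.FG (K × Q n) ∧ ResiduallyTorsionFreeNilpotent (K × Q n)) ∧
      (∀ m n, SameLowerCentralSequence (K × Q m) (K × Q n)) ∧
      (∀ n ≤ N, Nonempty (frattini (K × Q n) ≃* frattini K × Multiplicative (Fin n → ℤ))) ∧
      (frattini K = ⊥ → frattini (K × Q 0) = ⊥ ∧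
        ∀ n ≤ N, n ≠ 0 → frattini (K × Q n) ≠ ⊥) := by
  refine ⟨Y134.Fr.Q N, inferInstance, fun K _ hK hr => ?_⟩
  have key := fun n (hn : n ≤ N) => Y134.Fr.frattini_KQ hK hn
  refine ⟨fun n => ⟨?_, Y134.Fr.rtfn_prod hr (Y134.Fr.rtfn_Q N n)⟩,
    fun m n => Y134.Fr.Same.prod (Y134.Fr.Same.refl K) (Y134.Fr.same_Q N m n), key, fun h => ⟨?_, ?_⟩⟩
  · have := Y134.Fr.fg_Q N n
    infer_instance
  · obtain ⟨e⟩ := key 0 (Nat.zero_le N)
    have h1 : Subsingleton (frattini K) := by
      rw [h]
      infer_instance
    have h2 : Subsingleton (frattini (K × Y134.Fr.Q N 0)) := e.toEquiv.subsingleton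
    exact Subgroup.eq_bot_of_subsingleton _
  · intro n hn h0 h1
    obtain ⟨e⟩ := key n hn
    have h2 : Subsingleton (frattini (K × Y134.Fr.Q N n)) := by
      rw [h1]
      infer_instance
    have h3 := e.symm.injective (Subsingleton.elim (e.symm (1, Multiplicative.ofAdd fun _ => 1))
      (e.symm 1))
    have h4 := congrFun (congrArg Multiplicative.toAdd (congrArg Prod.snd h3))
      ⟨0, Nat.pos_of_ne_zero h0⟩
    exact one_ne_zero h4

end Pool.Agent.Results.MP_f5b23d_al.FrattiniRanks
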